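import Mathlib

/-!
# Circles and null sets of the plane
-/

set_option autoImplicit false

noncomputable section

namespace Pool.Agent.MP8b8716F

open MeasureTheory Filter Topology Set Metric Complex

namespace FDaux

/-- the preimage of a null set under a continuously differentiable map is null where the
derivative is invertible -/
theorem preimage_null (G : ℝ × ℝ → ℝ × ℝ) (hG : ContDiff ℝ 1 G) (N S : Set (ℝ × ℝ))
    (hN : volume N = 0)
    (hS : ∀ p ∈ S, G p ∈ N ∧ ∃ G' : (ℝ × ℝ) ≃L[ℝ] (ℝ × ℝ),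
      HasFDerivAt G (G' : (ℝ × ℝ) →L[ℝ] (ℝ × ℝ)) p) : volume S = 0 := by
  apply measure_null_of_locally_null
  intro p hp
  obtain ⟨hpN, G', hG'⟩ := hS p hp
  have hc : ContDiffAt ℝ 1 G p := hG.contDiffAt
  have hloc := hc.to_localInverse hG' one_ne_zero
  obtain ⟨u, hu, hgu⟩ : ∃ u ∈ 𝓝 (G p), ContDiffOn ℝ 1 (hc.localInverse hG' one_ne_zero) u := by
    exact hloc.contDiffOn le_rfl (by simp)
  have hleft : ∀ᶠ x in 𝓝 p, hc.localInverse hG' one_ne_zero (G x) = x :=
    (hc.hasStrictFDerivAt' hG' one_ne_zero).eventually_left_inverse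
  have hcu : ∀ᶠ x in 𝓝 p, G x ∈ u := hG.continuous.continuousAt.eventually hu
  refine ⟨{x | hc.localInverse hG' one_ne_zero (G x) = x ∧ G x ∈ u} ∩ S, ?_, ?_⟩
  · exact inter_mem (mem_nhdsWithin_of_mem_nhds (hleft.and hcu)) self_mem_nhdsWithin
  · refine measure_mono_null (t := hc.localInverse hG' one_ne_zero '' (N ∩ u)) ?_ ?_
    · rintro x ⟨⟨hx1, hx2⟩, hxS⟩
      exact ⟨G x, ⟨(hS x hxS).1, hx2⟩, hx1⟩
    · exact addHaar_image_eq_zero_of_differentiableOn_of_addHaar_eq_zero volume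
        ((hgu.differentiableOn one_ne_zero).mono inter_subset_right)
        (measure_mono_null inter_subset_left hN)

end FDaux

section FD

theorem two_step {M : Set ℂ} (hM : volume M = 0) (x0 : ℂ) {r s : ℝ} (hr : 0 < r) (hs : 0 < s) :
    ∀ᵐ φ : ℝ, ∀ᵐ θ : ℝ, x0 + r * exp (φ * I) + s * exp (θ * I) ∉ M := by
  set G : ℝ × ℝ → ℝ × ℝ := fun p =>
    (x0.re + r * Real.cos p.1 + s * Real.cos p.2, x0.im + r * Real.sin p.1 + s * Real.sin p.2)
    with hGdef
  have hGc : ContDiff ℝ 1 G := by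
    rw [hGdef]
    fun_prop
  set N : Set (ℝ × ℝ) := measurableEquivRealProd.symm ⁻¹' M with hNdef
  have hN : volume N = 0 := by
    have h1 : volume (measurableEquivRealProd ⁻¹' N) = volume N :=
      volume_preserving_equiv_real_prod.measure_preimage_equiv N
    rw [← h1]
    convert hM using 2
    ext x
    simp [hNdef]
  have hGN : ∀ p : ℝ × ℝ, x0 + r * exp (p.1 * I) + s * exp (p.2 * I) ∈ M → G p ∈ N := by
    intro p hp
    have : measurableEquivRealProd.symm (G p) = x0 + r * exp (p.1 * I) + s * exp (p.2 * I) := by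
      apply Complex.ext
      · simp [hGdef, measurableEquivRealProd, Complex.exp_ofReal_mul_I_re]
      · simp [hGdef, measurableEquivRealProd, Complex.exp_ofReal_mul_I_im]
    simp only [hNdef, mem_preimage, this]
    exact hp
  set S : Set (ℝ × ℝ) := {p | x0 + r * exp (p.1 * I) + s * exp (p.2 * I) ∈ M ∧
    Real.sin (p.2 - p.1) ≠ 0} with hSdef
  have hSnull : volume S = 0 := by
    apply FDaux.preimage_null G hGc N S hN
    rintro p ⟨hp1, hp2⟩
    refine ⟨hGN p hp1, ?_⟩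
    set L : (ℝ × ℝ) →L[ℝ] (ℝ × ℝ) :=
      ((-(r * Real.sin p.1)) • ContinuousLinearMap.fst ℝ ℝ ℝ +
        (-(s * Real.sin p.2)) • ContinuousLinearMap.snd ℝ ℝ ℝ).prod
      ((r * Real.cos p.1) • ContinuousLinearMap.fst ℝ ℝ ℝ +
        (s * Real.cos p.2) • ContinuousLinearMap.snd ℝ ℝ ℝ) with hL
    have hinj : Function.Injective L := by
      rw [injective_iff_map_eq_zero]
      rintro ⟨a, b⟩ hab
      rw [hL] at hab
      simp only [ContinuousLinearMap.prod_apply, add_apply,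
        smul_apply, ContinuousLinearMap.coe_fst', ContinuousLinearMap.coe_snd',
        smul_eq_mul, Prod.mk_eq_zero] at hab
      obtain ⟨e1, e2⟩ := hab
      have hsin : Real.sin (p.2 - p.1) = Real.sin p.2 * Real.cos p.1 - Real.cos p.2 * Real.sin p.1 :=
        Real.sin_sub _ _
      have ha : a * (r * Real.sin (p.2 - p.1)) = 0 := by
        rw [hsin]
        linear_combination (Real.cos p.2) * e1 + Real.sin p.2 * e2
      have hb : b * (s * Real.sin (p.2 - p.1)) = 0 := by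
        rw [hsin]
        linear_combination -(Real.cos p.1) * e1 - Real.sin p.1 * e2
      have ha' : a = 0 := by
        rcases mul_eq_zero.mp ha with h | h
        · exact h
        · exact absurd h (mul_ne_zero hr.ne' hp2)
      have hb' : b = 0 := by
        rcases mul_eq_zero.mp hb with h | h
        · exact h
        · exact absurd h (mul_ne_zero hs.ne' hp2)
      simp [ha', hb']
    have hsurj : Function.Surjective L := by
      have := (LinearMap.injective_iff_surjective (f := (L : (ℝ × ℝ) →ₗ[ℝ] (ℝ × ℝ)))).mp hinj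
      exact this
    refine ⟨ContinuousLinearEquiv.ofBijective L (LinearMap.ker_eq_bot.mpr hinj)
      (LinearMap.range_eq_top.mpr hsurj), ?_⟩
    rw [ContinuousLinearEquiv.coe_ofBijective]
    have h1 : HasFDerivAt (fun p : ℝ × ℝ => Real.cos p.1)
        ((-Real.sin p.1) • ContinuousLinearMap.fst ℝ ℝ ℝ) p :=
      (Real.hasDerivAt_cos p.1).comp_hasFDerivAt p hasFDerivAt_fst
    have h2 : HasFDerivAt (fun p : ℝ × ℝ => Real.cos p.2)
        ((-Real.sin p.2) • ContinuousLinearMap.snd ℝ ℝ ℝ) p :=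
      (Real.hasDerivAt_cos p.2).comp_hasFDerivAt p hasFDerivAt_snd
    have h3 : HasFDerivAt (fun p : ℝ × ℝ => Real.sin p.1)
        ((Real.cos p.1) • ContinuousLinearMap.fst ℝ ℝ ℝ) p :=
      (Real.hasDerivAt_sin p.1).comp_hasFDerivAt p hasFDerivAt_fst
    have h4 : HasFDerivAt (fun p : ℝ × ℝ => Real.sin p.2)
        ((Real.cos p.2) • ContinuousLinearMap.snd ℝ ℝ ℝ) p :=
      (Real.hasDerivAt_sin p.2).comp_hasFDerivAt p hasFDerivAt_snd
    have h5 := ((h1.const_mul r).const_add x0.re).add (h2.const_mul s)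
    have h6 := ((h3.const_mul r).const_add x0.im).add (h4.const_mul s)
    have h7 := h5.prodMk h6
    have hLeq : L = ((r • (-Real.sin p.1) • ContinuousLinearMap.fst ℝ ℝ ℝ +
          s • (-Real.sin p.2) • ContinuousLinearMap.snd ℝ ℝ ℝ).prod
        (r • Real.cos p.1 • ContinuousLinearMap.fst ℝ ℝ ℝ +
          s • Real.cos p.2 • ContinuousLinearMap.snd ℝ ℝ ℝ)) := by
      rw [hL]
      ext <;> simp
    rw [hLeq]
    exact h7
  have hae : ∀ᵐ p : ℝ × ℝ ∂(volume.prod volume), p ∉ S := by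
    rw [← Measure.volume_eq_prod]
    exact measure_eq_zero_iff_ae_notMem.mp hSnull
  have h2 := Measure.ae_ae_of_ae_prod hae
  filter_upwards [h2] with φ hφ
  have hcount : ({θ : ℝ | Real.sin (θ - φ) = 0} : Set ℝ).Countable := by
    have : ({θ : ℝ | Real.sin (θ - φ) = 0} : Set ℝ) ⊆ range (fun n : ℤ => (n : ℝ) * Real.pi + φ) := by
      intro θ hθ
      obtain ⟨n, hn⟩ := Real.sin_eq_zero_iff.mp hθ
      exact ⟨n, by simp only; rw [hn]; ring⟩
    exact (countable_range _).mono this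
  have hae2 : ∀ᵐ θ : ℝ, Real.sin (θ - φ) ≠ 0 := hcount.ae_notMem volume
  filter_upwards [hφ, hae2] with θ h3 h4 h5
  exact h3 ⟨h5, h4⟩

theorem good_point {M : Set ℂ} (hM : volume M = 0) (hne : M.Nonempty) {r s : ℝ} (hr : 0 < r)
    (hs : 0 < s) : ∃ x ∈ M, (∀ᵐ θ : ℝ, x + r * exp (θ * I) ∉ M) ∧
      (∀ᵐ θ : ℝ, x + s * exp (θ * I) ∉ M) := by
  obtain ⟨x0, hx0⟩ := hne
  have key : ∀ ρ : ℝ, 0 < ρ → ¬ (∀ᵐ θ : ℝ, x0 + ρ * exp (θ * I) ∉ M) →
      ∃ x ∈ M, (∀ᵐ θ : ℝ, x + r * exp (θ * I) ∉ M) ∧ (∀ᵐ θ : ℝ, x + s * exp (θ * I) ∉ M) := by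
    intro ρ hρ hn
    have h1 := two_step hM x0 hρ hr
    have h2 := two_step hM x0 hρ hs
    by_contra hcon
    push Not at hcon
    apply hn
    filter_upwards [h1, h2] with φ a1 a2 a3
    exact hcon _ a3 a1 a2
  by_cases h1 : ∀ᵐ θ : ℝ, x0 + r * exp (θ * I) ∉ M
  · by_cases h2 : ∀ᵐ θ : ℝ, x0 + s * exp (θ * I) ∉ M
    · exact ⟨x0, hx0, h1, h2⟩
    · exact key s hs h2
  · exact key r hr h1

end FD

end Pool.Agent.MP8b8716F
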