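import Pool.Agent.Lib.MP_8b8716_co_FALC.Defs

/-!
# Project FALC, module FB: continuity and measurability
-/

set_option autoImplicit false

noncomputable section

namespace Pool.Agent.MP8b8716F

open MeasureTheory Filter Topology Set Metric Complex

namespace ContFB

lemma num_eq {S : Set ℂ} (hS : MeasurableSet S) (r : ℝ) (x : ℂ) :
    volume.real (S ∩ closedBall x r) =
      ∫ z, (S ∩ closedBall x r).indicator (fun _ => (1 : ℝ)) z := by
  rw [integral_indicator (hS.inter measurableSet_closedBall)]
  simp [measureReal_def]

lemma continuous_num {S : Set ℂ} (hS : MeasurableSet S) {r : ℝ} (hr : 0 < r) :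
    Continuous fun x : ℂ => volume.real (S ∩ closedBall x r) := by
  simp only [num_eq hS]
  rw [continuous_iff_continuousAt]
  intro x0
  refine continuousAt_of_dominated (bound := (closedBall x0 (r + 1)).indicator fun _ => (1 : ℝ))
    ?_ ?_ ?_ ?_
  · exact Eventually.of_forall fun x =>
      (measurable_const.indicator (hS.inter measurableSet_closedBall)).aestronglyMeasurable
  · filter_upwards [ball_mem_nhds x0 one_pos] with x hx
    refine Eventually.of_forall fun z => ?_
    by_cases hz : z ∈ S ∩ closedBall x r
    · have h1 : z ∈ closedBall x0 (r + 1) := by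
        rw [mem_closedBall]
        have h2 := hz.2
        rw [mem_closedBall] at h2
        rw [mem_ball] at hx
        have := dist_triangle z x x0
        linarith
      rw [indicator_of_mem hz, indicator_of_mem h1]
      simp
    · rw [indicator_of_notMem hz, norm_zero]
      exact indicator_nonneg (fun _ _ => zero_le_one) z
  · rw [integrable_indicator_iff measurableSet_closedBall]
    exact integrableOn_const measure_closedBall_lt_top.ne
  · have hs : ∀ᵐ z : ℂ, z ∉ sphere x0 r := by
      have h0 := Measure.addHaar_sphere_of_ne_zero (volume : Measure ℂ) x0 hr.ne'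
      exact measure_eq_zero_iff_ae_notMem.1 h0
    filter_upwards [hs] with z hz
    have hz' : dist z x0 ≠ r := hz
    rcases lt_or_gt_of_ne hz' with h | h
    · have h1 : ∀ᶠ x in 𝓝 x0, dist z x < r :=
        (continuous_const.dist continuous_id).continuousAt.eventually_lt continuousAt_const h
      have h2 : (fun x => (S ∩ closedBall x r).indicator (fun _ => (1 : ℝ)) z) =ᶠ[𝓝 x0]
          fun _ => S.indicator (fun _ => (1 : ℝ)) z := by
        filter_upwards [h1] with x hx
        by_cases hzS : z ∈ S
        · have h3 : z ∈ S ∩ closedBall x r := ⟨hzS, mem_closedBall.2 hx.le⟩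
          rw [indicator_of_mem hzS, indicator_of_mem h3]
        · rw [indicator_of_notMem hzS, indicator_of_notMem fun h3 => hzS h3.1]
      exact continuousAt_const.congr h2.symm
    · have h1 : ∀ᶠ x in 𝓝 x0, r < dist z x :=
        continuousAt_const.eventually_lt (continuous_const.dist continuous_id).continuousAt h
      have h2 : (fun x => (S ∩ closedBall x r).indicator (fun _ => (1 : ℝ)) z) =ᶠ[𝓝 x0]
          fun _ => 0 := by
        filter_upwards [h1] with x hx
        rw [indicator_of_notMem]
        intro h3
        exact absurd (mem_closedBall.1 h3.2) (not_le.2 hx)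
      exact continuousAt_const.congr h2.symm

end ContFB

section FB

theorem continuous_rt {S : Set ℂ} (hS : MeasurableSet S) (n : ℕ) : Continuous (rt S n) := by
  have hr : (0 : ℝ) < 1 / ((n : ℝ) + 1) := by positivity
  have h : rt S n = fun x => volume.real (S ∩ closedBall x (1 / ((n : ℝ) + 1))) /
      volume.real (closedBall (0 : ℂ) (1 / ((n : ℝ) + 1))) := by
    funext x
    unfold rt
    rw [measureReal_def (volume : Measure ℂ) (closedBall x _),
      Measure.addHaar_closedBall_center (volume : Measure ℂ) x, ← measureReal_def]
  rw [h]
  exact (ContFB.continuous_num hS hr).div_const _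

theorem measurableSet_dens {S : Set ℂ} (hS : MeasurableSet S) : MeasurableSet {z | Dens S z} := by
  unfold Dens
  exact measurableSet_tendsto (𝓝 (1 : ℝ)) fun n => (continuous_rt hS n).measurable
end FB

end Pool.Agent.MP8b8716F
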