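import Pool.Agent.Lib.MP_8b8716_co_FALC.Dens
import Pool.Agent.Lib.MP_8b8716_co_FALC.Cont

/-!
# Connectedness for the density topology (module FC of the project FALC)
-/

set_option autoImplicit false

noncomputable section

namespace Pool.Agent.MP8b8716F

open MeasureTheory Filter Topology Set Metric Complex

section FC

namespace Conn

theorem dens_compl {P : Set ℂ} (hP : MeasurableSet P) (x : ℂ) : Dens Pᶜ x ↔ Dens0 P x := by
  have h : ∀ n, rt Pᶜ n x = 1 - rt P n x := fun n => by
    have := rt_add_compl hP n x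
    linarith
  unfold Dens Dens0
  constructor
  · intro h1
    have h2 := (tendsto_const_nhds (x := (1 : ℝ))).sub h1
    rw [sub_self] at h2
    refine h2.congr fun n => ?_
    rw [h n]
    ring
  · intro h1
    have h2 := (tendsto_const_nhds (x := (1 : ℝ))).sub h1
    rw [sub_zero] at h2
    exact h2.congr fun n => (h n).symm

theorem not_both {P : Set ℂ} {x : ℂ} (h : Dens P x) (h' : Dens0 P x) : False :=
  one_ne_zero (tendsto_nhds_unique h h')

theorem dens0_compl {P : Set ℂ} (hP : MeasurableSet P) (x : ℂ) : Dens0 Pᶜ x ↔ Dens P x := by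
  have := dens_compl hP.compl x
  rw [compl_compl] at this
  exact this.symm

theorem core {P : Set ℂ} (hP : MeasurableSet P) {x0 : ℂ} {η : ℝ} (hη : 0 < η)
    (hx0 : x0 ∈ frontier {x | Dens P x})
    (hsub : ∀ x ∈ frontier {x | Dens P x}, dist x x0 < η → Dens P x) : False := by
  set S : Set ℂ := {x | Dens P x} with hS
  have h1 : x0 ∈ closure S ∧ x0 ∈ closure Sᶜ := by
    rw [frontier_eq_closure_inter_closure] at hx0
    exact hx0
  obtain ⟨y, hy, hxy⟩ := Metric.mem_closure_iff.1 h1.2 (η / 3) (by linarith)
  have hyc : y ∉ closure S := by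
    intro hy1
    apply hy
    refine hsub y ?_ (by rw [dist_comm]; linarith)
    rw [frontier_eq_closure_inter_closure]
    exact ⟨hy1, subset_closure hy⟩
  have hne : (closure S).Nonempty := ⟨x0, h1.1⟩
  have hd : 0 < infDist y (closure S) := (isClosed_closure.notMem_iff_infDist_pos hne).1 hyc
  obtain ⟨z, hz, hzd⟩ := isClosed_closure.exists_infDist_eq_dist hne y
  set d := infDist y (closure S) with hdd
  have hdle : d ≤ dist y x0 := infDist_le_dist_of_mem h1.1
  have hball : ball y d ⊆ Sᶜ := by
    intro w hw hwS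
    have h2 : d ≤ dist y w := infDist_le_dist_of_mem (subset_closure hwS)
    rw [mem_ball, dist_comm] at hw
    linarith
  have hzy : dist z y = d := by rw [dist_comm]; exact hzd.symm
  have hz2 : z ∈ frontier S := by
    rw [frontier_eq_closure_inter_closure]
    refine ⟨hz, closure_mono hball ?_⟩
    rw [closure_ball y hd.ne', mem_closedBall, hzy]
  have hz3 : Dens P z := by
    refine hsub z hz2 ?_
    have h3 := dist_triangle z y x0
    rw [dist_comm x0 y] at hxy
    linarith
  have hz4 : ∀ n, rt P n z ≤ 1 - rt (ball y d) n z := by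
    intro n
    have h3 : rt P n z ≤ rt (ball y d)ᶜ n z := by
      apply rt_mono
      filter_upwards [ae_dens hP] with w hw hwP hwb
      exact hball hwb (hw.1 hwP)
    have h4 := rt_add_compl (measurableSet_ball (x := y) (ε := d)) n z
    linarith
  have hz5 : ∀ᶠ n in atTop, rt P n z ≤ 3 / 4 := by
    filter_upwards [rt_disc hd (by rw [← dist_eq_norm]; exact hzy)] with n hn
    have := hz4 n
    linarith
  have := le_of_tendsto hz3 hz5
  norm_num at this

end Conn

theorem dens_connected {P : Set ℂ} (hP : MeasurableSet P) (h : ∀ x, Dens P x ∨ Dens0 P x) :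
    (∀ x, Dens P x) ∨ (∀ x, Dens0 P x) := by
  by_contra hcon
  rw [not_or, not_forall, not_forall] at hcon
  obtain ⟨⟨a, ha⟩, ⟨b, hb⟩⟩ := hcon
  have hb' : Dens P b := (h b).resolve_right hb
  set S : Set ℂ := {x | Dens P x} with hS
  have hF : (frontier S).Nonempty := by
    rw [nonempty_iff_ne_empty]
    intro he
    rcases isClopen_iff.1 (isClopen_iff_frontier_eq_empty.2 he) with h1 | h1
    · have : b ∈ S := hb'
      rw [h1] at this
      exact this
    · have : a ∈ S := by rw [h1]; trivial
      exact ha this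
  have : Nonempty (frontier S) := hF.to_subtype
  have : CompleteSpace (frontier S) := isClosed_frontier.completeSpace_coe
  let K : ℕ ⊕ ℕ → Set (frontier S) := fun i => match i with
    | Sum.inl N => {x | ∀ n, N ≤ n → 1 / 2 ≤ rt P n x}
    | Sum.inr N => {x | ∀ n, N ≤ n → rt P n x ≤ 1 / 2}
  have hcont : ∀ n, Continuous fun x : frontier S => rt P n x := fun n =>
    (continuous_rt hP n).comp continuous_subtype_val
  have hK : ∀ i, IsClosed (K i) := by
    rintro (N | N)
    · change IsClosed {x : frontier S | ∀ n, N ≤ n → 1 / 2 ≤ rt P n x}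
      simp only [ofPred_forall]
      exact isClosed_iInter fun n => isClosed_iInter fun _ => isClosed_le continuous_const (hcont n)
    · change IsClosed {x : frontier S | ∀ n, N ≤ n → rt P n x ≤ 1 / 2}
      simp only [ofPred_forall]
      exact isClosed_iInter fun n => isClosed_iInter fun _ => isClosed_le (hcont n) continuous_const
  have hU : ⋃ i, K i = univ := by
    rw [eq_univ_iff_forall]
    intro x
    rw [mem_iUnion]
    rcases h x with h1 | h1
    · obtain ⟨N, hN⟩ := eventually_atTop.1 (h1.eventually_const_le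
        (by norm_num : (1 / 2 : ℝ) < 1))
      exact ⟨Sum.inl N, hN⟩
    · obtain ⟨N, hN⟩ := eventually_atTop.1 (h1.eventually_le_const
        (by norm_num : (0 : ℝ) < 1 / 2))
      exact ⟨Sum.inr N, hN⟩
  obtain ⟨i, x0, hx0⟩ := nonempty_interior_of_iUnion_of_closed hK hU
  rw [mem_interior_iff_mem_nhds, Metric.mem_nhds_iff] at hx0
  obtain ⟨η, hη, hsub⟩ := hx0
  rcases i with N | N
  · refine Conn.core hP hη x0.2 fun x hx hd => ?_
    have h1 : (⟨x, hx⟩ : frontier S) ∈ K (Sum.inl N) := hsub hd
    refine (h x).resolve_right fun h0 => ?_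
    have h2 : ∀ᶠ n in atTop, 1 / 2 ≤ rt P n x := eventually_atTop.2 ⟨N, h1⟩
    have := ge_of_tendsto h0 h2
    norm_num at this
  · have e : {x | Dens Pᶜ x} = Sᶜ := by
      ext x
      change Dens Pᶜ x ↔ ¬ Dens P x
      rw [Conn.dens_compl hP]
      exact ⟨fun h1 h2 => Conn.not_both h2 h1, fun h1 => (h x).resolve_left h1⟩
    have e2 : frontier {x | Dens Pᶜ x} = frontier S := by rw [e, frontier_compl]
    refine Conn.core (x0 := (x0 : ℂ)) hP.compl hη (by rw [e2]; exact x0.2) fun x hx hd => ?_
    rw [e2] at hx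
    have h1 : (⟨x, hx⟩ : frontier S) ∈ K (Sum.inr N) := hsub hd
    rw [Conn.dens_compl hP]
    refine (h x).resolve_left fun h0 => ?_
    have h2 : ∀ᶠ n in atTop, rt P n x ≤ 1 / 2 := eventually_atTop.2 ⟨N, h1⟩
    have := le_of_tendsto h0 h2
    norm_num at this

end FC

end Pool.Agent.MP8b8716F
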