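import Mathlib

/-!
# The measurable chromatic number of the plane is at least five (Falconer): definitions
-/

set_option autoImplicit false

noncomputable section

namespace Pool.Agent.MP8b8716F

open MeasureTheory Filter Topology Set Metric Complex

/-- the proportion of `S` in the disc with centre `x` and radius `1 / (n + 1)` -/
def rt (S : Set ℂ) (n : ℕ) (x : ℂ) : ℝ :=
  volume.real (S ∩ closedBall x (1 / ((n : ℝ) + 1))) / volume.real (closedBall x (1 / ((n : ℝ) + 1)))

/-- `x` is a density point of `S` -/
def Dens (S : Set ℂ) (x : ℂ) : Prop := Tendsto (fun n => rt S n x) atTop (𝓝 1)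

/-- `S` has density zero at `x` -/
def Dens0 (S : Set ℂ) (x : ℂ) : Prop := Tendsto (fun n => rt S n x) atTop (𝓝 0)

/-- four disjoint measurable sets which cover almost all of the plane and contain no two points at
distance one -/
structure Col4 (A : Fin 4 → Set ℂ) : Prop where
  meas : ∀ i, MeasurableSet (A i)
  disj : ∀ i j, i ≠ j → Disjoint (A i) (A j)
  cover : volume (⋃ i, A i)ᶜ = 0
  free : ∀ i, ∀ x ∈ A i, ∀ y ∈ A i, ‖x - y‖ ≠ 1

end Pool.Agent.MP8b8716F
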