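import Mathlib
import Pool.Agent.Lib.MP_8b8716_co_FALC.Defs

/-!
# Project FALC, module FA: density basics (helper81)
-/

set_option autoImplicit false

noncomputable section

namespace Pool.Agent.MP8b8716F

open MeasureTheory Filter Topology Set Metric Complex

section FA

private theorem dens_radius_pos (n : ℕ) : 0 < 1 / ((n : ℝ) + 1) := by positivity

private theorem dens_ball_pos (x : ℂ) {r : ℝ} (hr : 0 < r) : 0 < volume.real (closedBall x r) := by
  rw [measureReal_def]
  exact ENNReal.toReal_pos (measure_closedBall_pos volume x hr).ne' measure_closedBall_lt_top.ne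

private theorem dens_ne_top (S : Set ℂ) (x : ℂ) (r : ℝ) : volume (S ∩ closedBall x r) ≠ ⊤ :=
  ((measure_mono inter_subset_right).trans_lt measure_closedBall_lt_top).ne

private theorem dens_tendsto_radius :
    Tendsto (fun n : ℕ => 1 / ((n : ℝ) + 1)) atTop (𝓝[>] 0) := by
  rw [tendsto_nhdsWithin_iff]
  exact ⟨tendsto_one_div_add_atTop_nhds_zero_nat,
    Filter.Eventually.of_forall fun n => dens_radius_pos n⟩

theorem rt_nonneg (S : Set ℂ) (n : ℕ) (x : ℂ) : 0 ≤ rt S n x := by
  unfold rt
  exact div_nonneg measureReal_nonneg measureReal_nonneg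

theorem rt_le_one (S : Set ℂ) (n : ℕ) (x : ℂ) : rt S n x ≤ 1 := by
  unfold rt
  rw [div_le_one (dens_ball_pos x (dens_radius_pos n))]
  exact measureReal_mono inter_subset_right measure_closedBall_lt_top.ne

/-- monotone up to null sets -/
theorem rt_mono {S T : Set ℂ} (h : ∀ᵐ z : ℂ, z ∈ S → z ∈ T) (n : ℕ) (x : ℂ) :
    rt S n x ≤ rt T n x := by
  unfold rt
  refine div_le_div_of_nonneg_right ?_ measureReal_nonneg
  rw [measureReal_def, measureReal_def]
  refine ENNReal.toReal_mono (dens_ne_top T x _) (measure_mono_ae ?_)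
  filter_upwards [h] with z hz hz'
  exact ⟨hz hz'.1, hz'.2⟩

theorem rt_add_compl {S : Set ℂ} (hS : MeasurableSet S) (n : ℕ) (x : ℂ) :
    rt S n x + rt Sᶜ n x = 1 := by
  unfold rt
  rw [← add_div, div_eq_one_iff_eq (dens_ball_pos x (dens_radius_pos n)).ne']
  rw [measureReal_def, measureReal_def, measureReal_def,
    ← ENNReal.toReal_add (dens_ne_top _ _ _) (dens_ne_top _ _ _)]
  congr 1
  rw [inter_comm S, inter_comm Sᶜ]
  have h := measure_inter_add_sdiff (μ := (volume : Measure ℂ)) (closedBall x (1 / ((n : ℝ) + 1))) hS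
  rwa [sdiff_eq] at h

theorem rt_add {S T : Set ℂ} (hT : MeasurableSet T) (h : Disjoint S T) (n : ℕ) (x : ℂ) :
    rt (S ∪ T) n x = rt S n x + rt T n x := by
  unfold rt
  rw [← add_div]
  congr 1
  rw [measureReal_def, measureReal_def, measureReal_def,
    ← ENNReal.toReal_add (dens_ne_top _ _ _) (dens_ne_top _ _ _)]
  congr 1
  rw [union_inter_distrib_right]
  exact measure_union (h.mono inter_subset_left inter_subset_left)
    (hT.inter measurableSet_closedBall)

theorem ae_dens {S : Set ℂ} (hS : MeasurableSet S) :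
    ∀ᵐ z : ℂ, (z ∈ S → Dens S z) ∧ (z ∉ S → Dens0 S z) := by
  filter_upwards [Besicovitch.ae_tendsto_measure_inter_div_of_measurableSet
    (volume : Measure ℂ) hS] with z hz
  have h1 := hz.comp dens_tendsto_radius
  have h2 : (fun n : ℕ => rt S n z) = ENNReal.toReal ∘
      ((fun r => volume (S ∩ closedBall z r) / volume (closedBall z r)) ∘
        fun n : ℕ => 1 / ((n : ℝ) + 1)) := by
    funext n
    simp only [Function.comp_apply]
    rw [ENNReal.toReal_div]
    rfl
  constructor
  · intro hzS
    unfold Dens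
    rw [indicator_of_mem hzS] at h1
    have h3 := (ENNReal.tendsto_toReal ENNReal.one_ne_top).comp h1
    rw [h2]
    simpa using h3
  · intro hzS
    unfold Dens0
    rw [indicator_of_notMem hzS] at h1
    have h3 := (ENNReal.tendsto_toReal ENNReal.zero_ne_top).comp h1
    rw [h2]
    simpa using h3

/-- a disc has at least one quarter of the small discs around its boundary points -/
theorem rt_disc {y z : ℂ} {d : ℝ} (hd : 0 < d) (h : ‖z - y‖ = d) :
    ∀ᶠ n in atTop, 1 / 4 ≤ rt (ball y d) n z := by
  have h0 : ∀ᶠ n : ℕ in atTop, 1 / ((n : ℝ) + 1) < d :=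
    tendsto_one_div_add_atTop_nhds_zero_nat.eventually (gt_mem_nhds hd)
  filter_upwards [h0] with n hn
  unfold rt
  set r : ℝ := 1 / ((n : ℝ) + 1) with hr
  have hr0 : 0 < r := dens_radius_pos n
  rw [le_div_iff₀ (dens_ball_pos z hr0)]
  set c : ℂ := z + ((r / 2 : ℝ) : ℂ) * ((y - z) / (d : ℂ)) with hc
  have hyz : ‖y - z‖ = d := by rw [norm_sub_rev, h]
  have hdC : (d : ℂ) ≠ 0 := by exact_mod_cast hd.ne'
  have hnz : ‖c - z‖ = r / 2 := by
    have h1 : c - z = ((r / 2 : ℝ) : ℂ) * ((y - z) / (d : ℂ)) := by
      rw [hc]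
      ring
    rw [h1, norm_mul, norm_div, hyz, Complex.norm_real, Complex.norm_real,
      Real.norm_of_nonneg hd.le, Real.norm_of_nonneg (by positivity), div_self hd.ne', mul_one]
  have hny : ‖c - y‖ = d - r / 2 := by
    have h1 : c - y = ((r / 2 / d - 1 : ℝ) : ℂ) * (y - z) := by
      rw [hc]
      push_cast
      field_simp
      ring
    rw [h1, norm_mul, hyz, Complex.norm_real, Real.norm_of_nonpos]
    · field_simp
      ring
    · have : r / 2 / d ≤ 1 := by
        rw [div_le_one hd]
        linarith
      linarith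
  have hsub : ball c (r / 2) ⊆ ball y d ∩ closedBall z r := by
    intro q hq
    rw [mem_ball, dist_eq_norm] at hq
    rw [mem_inter_iff, mem_ball, mem_closedBall, dist_eq_norm, dist_eq_norm]
    constructor
    · calc ‖q - y‖ = ‖(q - c) + (c - y)‖ := by congr 1; ring
        _ ≤ ‖q - c‖ + ‖c - y‖ := norm_add_le _ _
        _ < r / 2 + (d - r / 2) := by rw [hny]; linarith
        _ = d := by ring
    · calc ‖q - z‖ = ‖(q - c) + (c - z)‖ := by congr 1; ring
        _ ≤ ‖q - c‖ + ‖c - z‖ := norm_add_le _ _
        _ ≤ r / 2 + r / 2 := by rw [hnz]; linarith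
        _ = r := by ring
  have hv1 : volume.real (ball c (r / 2)) = (r / 2) ^ 2 * Real.pi := by
    rw [measureReal_def, Complex.volume_ball, ENNReal.toReal_mul, ENNReal.toReal_pow,
      ENNReal.toReal_ofReal (by positivity)]
    simp
  have hv2 : volume.real (closedBall z r) = r ^ 2 * Real.pi := by
    rw [measureReal_def, Complex.volume_closedBall, ENNReal.toReal_mul, ENNReal.toReal_pow,
      ENNReal.toReal_ofReal (by positivity)]
    simp
  calc 1 / 4 * volume.real (closedBall z r) = volume.real (ball c (r / 2)) := by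
        rw [hv1, hv2]
        ring
    _ ≤ _ := measureReal_mono hsub (dens_ne_top _ _ _)

theorem transl {S : Set ℂ} (hS : MeasurableSet S) (hf : ∀ x ∈ S, ∀ y ∈ S, ‖x - y‖ ≠ 1) {x p : ℂ}
    (hx : ¬ Dens0 S x) (hp : Dens S p) : ‖x - p‖ ≠ 1 := by
  intro hxp
  -- a lower bound for infinitely many radii
  obtain ⟨ε, hε, hfr⟩ : ∃ ε > 0, ∃ᶠ n in atTop, ε ≤ rt S n x := by
    by_contra hcon
    push Not at hcon
    apply hx
    unfold Dens0
    rw [Metric.tendsto_nhds]
    intro ε hε
    filter_upwards [hcon ε hε] with n hn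
    rwa [Real.dist_eq, sub_zero, abs_of_nonneg (rt_nonneg S n x)]
  have h2 : ∀ᶠ n in atTop, 1 - ε < rt S n p := hp.eventually (lt_mem_nhds (by linarith))
  obtain ⟨n, hn1, hn2⟩ := (hfr.and_eventually h2).exists
  set r : ℝ := 1 / ((n : ℝ) + 1) with hr
  have hr0 : 0 < r := dens_radius_pos n
  set v : ℂ := p - x with hv
  set A : Set ℂ := S ∩ closedBall x r with hA
  have hAm : MeasurableSet A := hS.inter measurableSet_closedBall
  set T : Set ℂ := (fun z => z - v) ⁻¹' A with hT
  have hTm : volume T = volume A :=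
    (measurePreserving_sub_right volume v).measure_preimage hAm.nullMeasurableSet
  have hTmeas : MeasurableSet T := (measurable_sub_const v) hAm
  have hTsub : T ⊆ closedBall p r := by
    intro q hq
    have h3 : q - v ∈ closedBall x r := hq.2
    rw [mem_closedBall, dist_eq_norm] at h3 ⊢
    have h4 : q - v - x = q - p := by rw [hv]; ring
    rwa [h4] at h3
  have hV : volume.real (closedBall x r) = volume.real (closedBall p r) := by
    rw [measureReal_def, measureReal_def, Complex.volume_closedBall, Complex.volume_closedBall]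
  have hnd : ¬ Disjoint T (S ∩ closedBall p r) := by
    intro hdis
    have h3 : volume.real T + volume.real (S ∩ closedBall p r) ≤ volume.real (closedBall p r) := by
      have h4 : volume.real (T ∪ (S ∩ closedBall p r)) =
          volume.real T + volume.real (S ∩ closedBall p r) :=
        measureReal_union hdis (hS.inter measurableSet_closedBall)
          (by rw [hTm]; exact dens_ne_top _ _ _) (dens_ne_top _ _ _)
      rw [← h4]
      exact measureReal_mono (union_subset hTsub inter_subset_right) measure_closedBall_lt_top.ne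
    have h5 : volume.real T = volume.real A := by rw [measureReal_def, measureReal_def, hTm]
    have h6 : rt S n x + rt S n p ≤ 1 := by
      unfold rt
      rw [← hr, hV, ← add_div, div_le_one (dens_ball_pos p hr0), ← h5]
      exact h3
    linarith
  rw [not_disjoint_iff] at hnd
  obtain ⟨q, hq1, hq2⟩ := hnd
  have h7 : q - v ∈ S := hq1.1
  apply hf q hq2.1 (q - v) h7
  rw [sub_sub_cancel, hv, norm_sub_rev, hxp]

end FA

end Pool.Agent.MP8b8716F
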