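import Mathlib

set_option autoImplicit false

noncomputable section

namespace Pool.Agent.MP8b8716F

open MeasureTheory Filter Topology Set Metric Complex

namespace Rot

private instance fact2pi : Fact (0 < 2 * Real.pi) := ⟨Real.two_pi_pos⟩

private theorem perZ {G : Set ℝ} (hper : ∀ θ, θ + 2 * Real.pi ∈ G ↔ θ ∈ G) (n : ℤ) :
    ∀ θ, θ + n * (2 * Real.pi) ∈ G ↔ θ ∈ G := by
  induction n using Int.induction_on with
  | zero => intro θ; simp
  | succ i ih =>
    intro θ
    rw [← ih θ, ← hper (θ + (i : ℤ) * (2 * Real.pi))]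
    rw [show θ + ((((i : ℤ) + 1 : ℤ)) : ℝ) * (2 * Real.pi)
      = θ + ((i : ℤ) : ℝ) * (2 * Real.pi) + 2 * Real.pi by push_cast; ring]
  | pred i ih =>
    intro θ
    rw [← ih θ, ← hper (θ + ((-(i : ℤ) - 1 : ℤ) : ℝ) * (2 * Real.pi))]
    rw [show θ + ((-(i : ℤ) - 1 : ℤ) : ℝ) * (2 * Real.pi) + 2 * Real.pi
      = θ + ((-(i : ℤ) : ℤ) : ℝ) * (2 * Real.pi) by push_cast; ring]

private theorem mem_image {G : Set ℝ} (hper : ∀ θ, θ + 2 * Real.pi ∈ G ↔ θ ∈ G) (x : ℝ) :
    (x : AddCircle (2 * Real.pi)) ∈ ((↑) : ℝ → AddCircle (2 * Real.pi)) '' G ↔ x ∈ G := by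
  constructor
  · rintro ⟨g, hg, hgx⟩
    have h0 : ((x - g : ℝ) : AddCircle (2 * Real.pi)) = 0 := by
      rw [AddCircle.coe_sub, hgx, sub_self]
    obtain ⟨n, hn⟩ := (AddCircle.coe_eq_zero_iff _).1 h0
    have : x = g + n * (2 * Real.pi) := by
      rw [zsmul_eq_mul] at hn
      linarith
    rw [this, perZ hper]
    exact hg
  · intro hx
    exact ⟨x, hx, rfl⟩

private theorem order_zero {β : ℝ} (hβ : Real.cos β = 5 / 6) :
    addOrderOf ((β : AddCircle (2 * Real.pi)) + β) = 0 := by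
  rw [addOrderOf_eq_zero_iff']
  intro n hn h0
  have h1 : ((n • (β + β) : ℝ) : AddCircle (2 * Real.pi)) = 0 := by
    rw [AddCircle.coe_nsmul, AddCircle.coe_add]; exact h0
  obtain ⟨k, hk⟩ := (AddCircle.coe_eq_zero_iff _).1 h1
  have hn' : (n : ℝ) ≠ 0 := by positivity
  have hβ2 : β = ((k / n : ℚ) : ℝ) * Real.pi := by
    rw [zsmul_eq_mul, nsmul_eq_mul] at hk
    push_cast
    field_simp
    linarith
  have h3 := niven ⟨_, hβ2⟩ ⟨5 / 6, by rw [hβ]; norm_num⟩
  rw [hβ] at h3
  simp only [Set.mem_insert_iff, Set.mem_singleton_iff] at h3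
  norm_num at h3

end Rot

open Rot in
theorem no_alternating {β : ℝ} (hβ : Real.cos β = 5 / 6) {G : Set ℝ} (hG : MeasurableSet G)
    (hper : ∀ θ, θ + 2 * Real.pi ∈ G ↔ θ ∈ G) (halt : ∀ᵐ θ : ℝ, θ + β ∈ G ↔ θ ∉ G) : False := by
  set mk : ℝ → AddCircle (2 * Real.pi) := (↑) with hmk
  set G' : Set (AddCircle (2 * Real.pi)) := mk '' G with hG'
  have hmem : ∀ x : ℝ, (x : AddCircle (2 * Real.pi)) ∈ G' ↔ x ∈ G := fun x => mem_image hper x
  have hG'm : MeasurableSet G' := by
    have : G' = (AddCircle.measurableEquivIoc (2 * Real.pi) 0) ⁻¹' (Subtype.val ⁻¹' G) := by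
      ext x
      rw [Set.mem_preimage, Set.mem_preimage, ← hmem]
      have : (((AddCircle.measurableEquivIoc (2 * Real.pi) 0 x : Ioc (0 : ℝ) (0 + 2 * Real.pi)) : ℝ)
          : AddCircle (2 * Real.pi)) = x :=
        (AddCircle.equivIoc (2 * Real.pi) 0).symm_apply_apply x
      rw [this]
    rw [this]
    exact (AddCircle.measurableEquivIoc (2 * Real.pi) 0).measurable (measurable_subtype_coe hG)
  have halt' : ∀ᵐ x : AddCircle (2 * Real.pi), x + (β : AddCircle (2 * Real.pi)) ∈ G' ↔ x ∉ G' := by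
    have hmp := AddCircle.measurePreserving_mk (2 * Real.pi) 0
    rw [← hmp.map_eq]
    rw [ae_map_iff hmp.measurable.aemeasurable]
    · refine ae_restrict_of_ae ?_
      filter_upwards [halt] with θ hθ
      rw [← AddCircle.coe_add, hmem, hmem]
      exact hθ
    · have h1 : MeasurableSet {x : AddCircle (2 * Real.pi) |
          x + (β : AddCircle (2 * Real.pi)) ∈ G'} := (measurable_add_const _) hG'm
      have h2 : MeasurableSet {x : AddCircle (2 * Real.pi) | x ∉ G'} := hG'm.compl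
      have : {x : AddCircle (2 * Real.pi) | x + (β : AddCircle (2 * Real.pi)) ∈ G' ↔ x ∉ G'}
          = ({x | x + (β : AddCircle (2 * Real.pi)) ∈ G'} ∩ {x | x ∉ G'}) ∪
            ({x | x + (β : AddCircle (2 * Real.pi)) ∈ G'}ᶜ ∩ {x | x ∉ G'}ᶜ) := by
        ext x
        simp only [Set.mem_ofPred_eq, Set.mem_union, Set.mem_inter_iff, Set.mem_compl_iff]
        tauto
      rw [this]
      exact (h1.inter h2).union (h1.compl.inter h2.compl)
  have hq : Measure.QuasiMeasurePreserving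
      (fun x : AddCircle (2 * Real.pi) => x + (β : AddCircle (2 * Real.pi))) volume volume :=
    (measurePreserving_add_right volume (β : AddCircle (2 * Real.pi))).quasiMeasurePreserving
  have hne : ¬ ∀ᵐ _ : AddCircle (2 * Real.pi), False := by
    intro h
    have h0 : volume (Set.univ : Set (AddCircle (2 * Real.pi))) = 0 := by
      have h2 : ∀ᵐ x : AddCircle (2 * Real.pi), x ∉ (Set.univ : Set (AddCircle (2 * Real.pi))) := by
        filter_upwards [h] with x hx using hx.elim
      exact measure_eq_zero_iff_ae_notMem.2 h2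
    rw [AddCircle.measure_univ] at h0
    have := ENNReal.ofReal_eq_zero.1 h0
    linarith [Real.two_pi_pos]
  have h2 : ∀ᵐ x : AddCircle (2 * Real.pi),
      x + ((β : AddCircle (2 * Real.pi)) + β) ∈ G' ↔ x ∈ G' := by
    filter_upwards [halt', hq.ae halt'] with x hx hx2
    rw [← add_assoc]
    tauto
  have herg : Ergodic (fun x : AddCircle (2 * Real.pi) => x + ((β : AddCircle (2 * Real.pi)) + β)) :=
    AddCircle.ergodic_add_right.2 (order_zero hβ)
  have hae : (fun x : AddCircle (2 * Real.pi) => x + ((β : AddCircle (2 * Real.pi)) + β)) ⁻¹' G'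
      =ᵐ[volume] G' := by
    filter_upwards [h2] with x hx
    exact propext hx
  rcases herg.quasiErgodic.ae_mem_or_ae_notMem₀ hG'm.nullMeasurableSet hae with h | h
  · apply hne
    filter_upwards [h, hq.ae h, halt'] with x hx hx2 hx3
    exact (hx3.1 hx2) hx
  · apply hne
    filter_upwards [h, hq.ae h, halt'] with x hx hx2 hx3
    exact hx2 (hx3.2 hx)

end Pool.Agent.MP8b8716F
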