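import Mathlib
import Pool.Agent.Lib.MP_8b8716_co_FALC.Defs
import Pool.Agent.Lib.MP_8b8716_co_FALC.Dens
import Pool.Agent.Lib.MP_8b8716_co_FALC.Cont
import Pool.Agent.Lib.MP_8b8716_co_FALC.Conn
import Pool.Agent.Lib.MP_8b8716_co_FALC.Circ
import Pool.Agent.Lib.MP_8b8716_co_FALC.Rot

/-!
# The measurable chromatic number of the plane is at least five (Falconer)
-/

set_option autoImplicit false

noncomputable section

namespace Pool.Agent.MP8b8716F

open MeasureTheory Filter Topology Set Metric Complex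

private theorem not_both {S : Set ℂ} {x : ℂ} (h : Dens S x) (h0 : Dens0 S x) : False :=
  one_ne_zero (tendsto_nhds_unique h h0)

/-- if `T` has density one then a disjoint set has density zero -/
private theorem dens0_of_dens {S T : Set ℂ} (hT : MeasurableSet T) (hd : Disjoint S T) {x : ℂ}
    (h : Dens T x) : Dens0 S x := by
  have h1 : Tendsto (fun n => 1 - rt T n x) atTop (𝓝 0) := by
    have := (tendsto_const_nhds (x := (1 : ℝ)) (f := atTop (α := ℕ))).sub h
    simpa using this
  refine squeeze_zero (fun n => rt_nonneg S n x) (fun n => ?_) h1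
  have h2 := rt_add hT hd n x
  have h3 := rt_le_one (S ∪ T) n x
  linarith

private theorem dens_unique {A : Fin 4 → Set ℂ} (hA : Col4 A) {x : ℂ} {i j : Fin 4}
    (hi : Dens (A i) x) (hj : Dens (A j) x) : i = j := by
  by_contra hij
  exact not_both hi (dens0_of_dens (hA.meas j) (hA.disj i j hij) hj)

private theorem rt_null {S : Set ℂ} (h : volume S = 0) (n : ℕ) (x : ℂ) : rt S n x = 0 := by
  unfold rt
  have : volume.real (S ∩ closedBall x (1 / ((n : ℝ) + 1))) = 0 := by
    rw [measureReal_def, measure_mono_null inter_subset_left h]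
    simp
  rw [this, zero_div]

private theorem rt_sum {A : Fin 4 → Set ℂ} (hA : Col4 A) (n : ℕ) (x : ℂ) :
    rt (A 0) n x + rt (A 1) n x + rt (A 2) n x + rt (A 3) n x = 1 := by
  have hU : (⋃ i, A i) = ((A 0 ∪ A 1) ∪ A 2) ∪ A 3 := by
    ext z
    simp only [mem_iUnion, mem_union]
    constructor
    · rintro ⟨i, hi⟩
      fin_cases i
      · exact Or.inl (Or.inl (Or.inl hi))
      · exact Or.inl (Or.inl (Or.inr hi))
      · exact Or.inl (Or.inr hi)
      · exact Or.inr hi
    · rintro (((h | h) | h) | h)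
      exacts [⟨0, h⟩, ⟨1, h⟩, ⟨2, h⟩, ⟨3, h⟩]
  have hm : MeasurableSet (⋃ i, A i) := MeasurableSet.iUnion hA.meas
  have h1 := rt_add_compl hm n x
  rw [rt_null hA.cover, add_zero, hU] at h1
  have d01 : Disjoint (A 0) (A 1) := hA.disj 0 1 (by decide)
  have d2 : Disjoint (A 0 ∪ A 1) (A 2) :=
    Disjoint.union_left (hA.disj 0 2 (by decide)) (hA.disj 1 2 (by decide))
  have d3 : Disjoint ((A 0 ∪ A 1) ∪ A 2) (A 3) :=
    Disjoint.union_left (Disjoint.union_left (hA.disj 0 3 (by decide)) (hA.disj 1 3 (by decide)))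
      (hA.disj 2 3 (by decide))
  rw [rt_add (hA.meas 3) d3, rt_add (hA.meas 2) d2, rt_add (hA.meas 1) d01] at h1
  exact h1

/-- the points which are density points of none of the four sets -/
private def Mset (A : Fin 4 → Set ℂ) : Set ℂ := {x | ∀ i, ¬ Dens (A i) x}

private theorem M_null {A : Fin 4 → Set ℂ} (hA : Col4 A) : volume (Mset A) = 0 := by
  have h1 : ∀ᵐ x : ℂ, ∀ i, x ∈ A i → Dens (A i) x := by
    rw [ae_all_iff]
    intro i
    filter_upwards [ae_dens (hA.meas i)] with x hx using hx.1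
  have h2 : ∀ᵐ x : ℂ, x ∈ ⋃ i, A i := by
    rw [ae_iff]
    exact hA.cover
  have h3 : ∀ᵐ x : ℂ, x ∉ Mset A := by
    filter_upwards [h1, h2] with x hx hx' hM
    obtain ⟨i, hi⟩ := mem_iUnion.1 hx'
    exact hM i (hx i hi)
  rw [ae_iff] at h3
  simpa using h3

private theorem M_nonempty {A : Fin 4 → Set ℂ} (hA : Col4 A) : (Mset A).Nonempty := by
  by_contra hne
  have hall : ∀ x, ∃ i, Dens (A i) x := by
    intro x
    by_contra hx
    push Not at hx
    exact hne ⟨x, hx⟩
  have h1 : ∀ i, ∀ x, Dens (A i) x ∨ Dens0 (A i) x := by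
    intro i x
    obtain ⟨j, hj⟩ := hall x
    by_cases hij : i = j
    · left
      rw [hij]
      exact hj
    · right
      exact dens0_of_dens (hA.meas j) (hA.disj i j hij) hj
  obtain ⟨i, hi⟩ := hall 0
  rcases dens_connected (hA.meas i) (h1 i) with h | h
  · have h2 := transl (hA.meas i) (hA.free i) (x := 0) (p := 1) (fun h0 => not_both (h 0) h0) (h 1)
    apply h2
    simp
  · exact not_both hi (h 0)

private theorem two_colours {A : Fin 4 → Set ℂ} (hA : Col4 A) {x : ℂ} (hx : x ∈ Mset A) :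
    ∃ i j, i ≠ j ∧ ¬ Dens0 (A i) x ∧ ¬ Dens0 (A j) x := by
  by_contra hcon
  push Not at hcon
  have h1 : ∃ i0, ∀ j, j ≠ i0 → Dens0 (A j) x := by
    by_cases h : ∃ i, ¬ Dens0 (A i) x
    · obtain ⟨i, hi⟩ := h
      exact ⟨i, fun j hj => hcon i j (Ne.symm hj) hi⟩
    · push Not at h
      exact ⟨0, fun j _ => h j⟩
  obtain ⟨i0, hi0⟩ := h1
  apply hx i0
  have hs := rt_sum hA
  unfold Dens
  have lim : ∀ a b c : Fin 4, a ≠ i0 → b ≠ i0 → c ≠ i0 →
      (∀ n, rt (A i0) n x = 1 - (rt (A a) n x + rt (A b) n x + rt (A c) n x)) →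
      Tendsto (fun n => rt (A i0) n x) atTop (𝓝 1) := by
    intro a b c ha hb hc h
    have h2 : Tendsto (fun n => 1 - (rt (A a) n x + rt (A b) n x + rt (A c) n x)) atTop
        (𝓝 (1 - (0 + 0 + 0))) :=
      tendsto_const_nhds.sub (((hi0 a ha).add (hi0 b hb)).add (hi0 c hc))
    simp only [add_zero, sub_zero] at h2
    refine h2.congr fun n => (h n).symm
  fin_cases i0
  · exact lim 1 2 3 (by decide) (by decide) (by decide) fun n => by
      have := hs n x
      simp only [Fin.zero_eta]
      linarith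
  · exact lim 0 2 3 (by decide) (by decide) (by decide) fun n => by
      have := hs n x
      simp only [Fin.mk_one]
      linarith
  · exact lim 0 1 3 (by decide) (by decide) (by decide) fun n => by
      have := hs n x
      simp only [Fin.reduceFinMk]
      linarith
  · exact lim 0 1 2 (by decide) (by decide) (by decide) fun n => by
      have := hs n x
      simp only [Fin.reduceFinMk]
      linarith

private theorem fin4 : ∀ i j a b c : Fin 4, i ≠ j → a ≠ i → a ≠ j → b ≠ i → b ≠ j → a ≠ b →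
    c ≠ a → c ≠ b → c = i ∨ c = j := by
  decide

private theorem norm_sq_exp (a b : ℝ) (s t : ℝ) :
    ‖(a : ℂ) * exp (s * I) - b * exp (t * I)‖ ^ 2 =
      a ^ 2 + b ^ 2 - 2 * a * b * Real.cos (s - t) := by
  rw [← Complex.normSq_eq_norm_sq, Complex.normSq_apply]
  simp only [sub_re, mul_re, ofReal_re, ofReal_im, zero_mul, sub_zero, sub_im, mul_im,
    add_zero, exp_ofReal_mul_I_re, exp_ofReal_mul_I_im]
  rw [Real.cos_sub]
  have h1 := Real.sin_sq_add_cos_sq s
  have h2 := Real.sin_sq_add_cos_sq t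
  linear_combination a ^ 2 * h1 + b ^ 2 * h2

private theorem norm_one_of_sq {z : ℂ} (h : ‖z‖ ^ 2 = 1) : ‖z‖ = 1 := by
  have h0 := norm_nonneg z
  nlinarith [sq_nonneg (‖z‖ - 1)]

private theorem shift_ae {P : ℝ → Prop} (h : ∀ᵐ θ : ℝ, P θ) (b : ℝ) : ∀ᵐ θ : ℝ, P (θ + b) :=
  (measurePreserving_add_right volume b).quasiMeasurePreserving.ae h

theorem col4_false {A : Fin 4 → Set ℂ} (hA : Col4 A) : False := by
  have h3 : (0 : ℝ) < Real.sqrt 3 := Real.sqrt_pos.2 (by norm_num)
  obtain ⟨x, hxM, hg1, hg2⟩ := good_point (M_null hA) (M_nonempty hA) one_pos h3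
  obtain ⟨i, j, hij, hi, hj⟩ := two_colours hA hxM
  have hcol : ∀ z, z ∉ Mset A → ∃ c, Dens (A c) z := by
    intro z hz
    by_contra h
    push Not at h
    exact hz h
  -- two density points at distance one have different colours
  have hdiff : ∀ {z w : ℂ} {c d : Fin 4}, Dens (A c) z → Dens (A d) w → ‖z - w‖ = 1 → c ≠ d := by
    intro z w c d hc hd hn hcd
    subst hcd
    exact transl (hA.meas c) (hA.free c) (fun h0 => not_both hc h0) hd hn
  -- colours on the unit circle
  have hunit : ∀ {p : ℂ} {c : Fin 4}, Dens (A c) p → ‖x - p‖ = 1 → c ≠ i ∧ c ≠ j := by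
    intro p c hc hn
    constructor
    · intro h
      subst h
      exact transl (hA.meas c) (hA.free c) hi hc hn
    · intro h
      subst h
      exact transl (hA.meas c) (hA.free c) hj hc hn
  have hn1 : ∀ t : ℝ, ‖x - (x + (1 : ℝ) * exp (t * I))‖ = 1 := by
    intro t
    rw [sub_add_cancel_left, norm_neg, norm_mul, Complex.norm_exp_ofReal_mul_I]
    simp
  have hc6 : Real.cos (Real.pi / 6) = Real.sqrt 3 / 2 := Real.cos_pi_div_six
  have hsq : Real.sqrt 3 ^ 2 = 3 := Real.sq_sqrt (by norm_num)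
  -- the colour on the circle of radius `√3`
  have hw : ∀ᵐ θ : ℝ, ∃ c, Dens (A c) (x + (Real.sqrt 3 : ℝ) * exp (θ * I)) ∧ (c = i ∨ c = j) := by
    filter_upwards [hg2, shift_ae hg1 (Real.pi / 6), shift_ae hg1 (-(Real.pi / 6))]
      with θ h1 h2 h3
    obtain ⟨c, hc⟩ := hcol _ h1
    obtain ⟨a, ha⟩ := hcol _ h2
    obtain ⟨b, hb⟩ := hcol _ h3
    refine ⟨c, hc, ?_⟩
    obtain ⟨hai, haj⟩ := hunit ha (hn1 _)
    obtain ⟨hbi, hbj⟩ := hunit hb (hn1 _)
    have hab : a ≠ b := by
      refine hdiff ha hb ?_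
      apply norm_one_of_sq
      rw [add_sub_add_left_eq_sub, norm_sq_exp]
      have : θ + Real.pi / 6 - (θ + -(Real.pi / 6)) = Real.pi / 3 := by ring
      rw [this, Real.cos_pi_div_three]
      norm_num
    have hca : c ≠ a := by
      refine hdiff hc ha ?_
      apply norm_one_of_sq
      rw [add_sub_add_left_eq_sub, norm_sq_exp]
      have : θ - (θ + Real.pi / 6) = -(Real.pi / 6) := by ring
      rw [this, Real.cos_neg, hc6]
      nlinarith
    have hcb : c ≠ b := by
      refine hdiff hc hb ?_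
      apply norm_one_of_sq
      rw [add_sub_add_left_eq_sub, norm_sq_exp]
      have : θ - (θ + -(Real.pi / 6)) = Real.pi / 6 := by ring
      rw [this, hc6]
      nlinarith
    exact fin4 i j a b c hij hai haj hbi hbj hab hca hcb
  -- rotation
  set β : ℝ := Real.arccos (5 / 6) with hβ
  have hcosβ : Real.cos β = 5 / 6 := Real.cos_arccos (by norm_num) (by norm_num)
  refine no_alternating hcosβ
    (G := {θ : ℝ | Dens (A i) (x + (Real.sqrt 3 : ℝ) * exp (θ * I))}) ?_ ?_ ?_
  · have hcont : Continuous fun θ : ℝ => x + ((Real.sqrt 3 : ℝ) : ℂ) * exp (θ * I) := by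
      fun_prop
    exact hcont.measurable (measurableSet_dens (hA.meas i))
  · intro θ
    have : exp (((θ + 2 * Real.pi : ℝ) : ℂ) * I) = exp (θ * I) := by
      push_cast
      rw [add_mul]
      exact Complex.exp_periodic _
    simp only [mem_ofPred_eq, this]
  · filter_upwards [hw, shift_ae hw β] with θ h1 h2
    obtain ⟨c, hc, hc'⟩ := h1
    obtain ⟨d, hd, hd'⟩ := h2
    have hcd : d ≠ c := by
      refine hdiff hd hc ?_
      apply norm_one_of_sq
      rw [add_sub_add_left_eq_sub, norm_sq_exp]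
      have : θ + β - θ = β := by ring
      rw [this, hcosβ]
      nlinarith
    constructor
    · intro h h'
      have e1 := dens_unique hA hd h
      have e2 := dens_unique hA hc h'
      exact hcd (e1.trans e2.symm)
    · intro h
      have hci : c ≠ i := by
        intro e
        apply h
        show Dens (A i) _
        rw [← e]
        exact hc
      have hcj : c = j := hc'.resolve_left hci
      have hdi : d = i := by
        rcases hd' with e | e
        · exact e
        · exact absurd (e.trans hcj.symm) hcd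
      show Dens (A i) _
      rw [← hdi]
      exact hd

/-- Falconer: the plane has no measurable proper colouring with four colours -/
theorem falconer : ¬ ∃ κ : ℂ → Fin 4, (∀ i, NullMeasurableSet (κ ⁻¹' {i}) (volume : Measure ℂ)) ∧
    ∀ z w : ℂ, ‖z - w‖ = 1 → κ z ≠ κ w := by
  rintro ⟨κ, hm, hκ⟩
  have h1 : ∀ i, ∃ t ⊆ κ ⁻¹' {i}, MeasurableSet t ∧ t =ᵐ[volume] κ ⁻¹' {i} := fun i =>
    (hm i).exists_measurable_subset_ae_eq
  choose A hsub hmeas hae using h1
  refine col4_false (A := A) ⟨hmeas, ?_, ?_, ?_⟩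
  · intro i j hij
    refine Disjoint.mono (hsub i) (hsub j) ?_
    rw [Set.disjoint_left]
    intro z hz hz'
    exact hij (hz.symm.trans hz')
  · have h2 : ∀ᵐ z : ℂ, ∀ i, (z ∈ A i ↔ z ∈ κ ⁻¹' {i}) := by
      rw [ae_all_iff]
      intro i
      filter_upwards [(hae i).mem_iff] with z hz using hz
    have h3 : ∀ᵐ z : ℂ, z ∈ ⋃ i, A i := by
      filter_upwards [h2] with z hz
      exact mem_iUnion.2 ⟨κ z, (hz (κ z)).2 rfl⟩
    rw [ae_iff] at h3
    exact h3
  · intro i x hx y hy hn
    have e1 : κ x = i := hsub i hx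
    have e2 : κ y = i := hsub i hy
    exact hκ x y hn (e1.trans e2.symm)

end Pool.Agent.MP8b8716F
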